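import Pool.Agent.Lib.P280d4a.Ineq

set_option autoImplicit false
open Complex MeasureTheory Metric Set Filter Topology
open scoped Real ComplexConjugate

namespace Pool.Agent.Results.MP_280d4a_an.WeightedProduct

open Pool.Agent.Lib.P280d4a

lemma norm_one_sub {w z : ℂ} (hw : ‖w‖ = 1) : ‖1 - conj w * z‖ = ‖z - w‖ := by
  have h1 : w * (1 - conj w * z) = -(z - w) := by
    have := conj_mul_self_of_norm hw
    linear_combination (-z) * this
  have h2 : ‖w * (1 - conj w * z)‖ = ‖1 - conj w * z‖ := by rw [norm_mul, hw, one_mul]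
  rw [← h2, h1, norm_neg]

lemma diffContOnCl_factor {w : ℂ} (hw : ‖w‖ = 1) {p : ℝ} (hp : 0 ≤ p) :
    DiffContOnCl ℂ (fun z => (1 - conj w * z) ^ (p : ℂ)) (ball 0 1) := by
  rcases hp.eq_or_lt with h0 | hpos
  · subst h0
    have : (fun z : ℂ => (1 - conj w * z) ^ ((0 : ℝ) : ℂ)) = fun _ => 1 := by
      ext z
      rw [Complex.ofReal_zero, Complex.cpow_zero]
    rw [this]
    exact diffContOnCl_const
  · constructor
    · intro z hz
      have hsl : 1 - conj w * z ∈ slitPlane := by
        rw [mem_ball_zero_iff] at hz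
        left
        have h1 : ‖conj w * z‖ < 1 := by
          rw [norm_mul, RCLike.norm_conj, hw, one_mul]; exact hz
        have h2 := Complex.re_le_norm (conj w * z)
        simp only [sub_re, one_re]
        linarith
      have hd : DifferentiableAt ℂ (fun z => 1 - conj w * z) z := by fun_prop
      exact (hd.cpow_const hsl).differentiableWithinAt
    · rw [closure_ball _ one_ne_zero]
      intro z hz
      rw [mem_closedBall_zero_iff] at hz
      have hre : 0 ≤ (1 - conj w * z).re := by
        have h1 : ‖conj w * z‖ ≤ 1 := by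
          rw [norm_mul, RCLike.norm_conj, hw, one_mul]; exact hz
        have h2 := Complex.re_le_norm (conj w * z)
        simp only [sub_re, one_re]
        linarith
      have hc : ContinuousAt (fun x : ℂ => x ^ (p : ℂ)) (1 - conj w * z) :=
        continuousAt_cpow_const_of_re_pos (Or.inl hre) (by simpa using hpos)
      have hc2 : ContinuousAt (fun z : ℂ => 1 - conj w * z) z := by fun_prop
      exact (ContinuousAt.comp (f := fun z : ℂ => 1 - conj w * z) hc hc2).continuousWithinAt

lemma diffContOnCl_prod {r : ℕ} {z : Fin r → ℂ} {p : Fin r → ℝ} (hz : ∀ j, ‖z j‖ = 1)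
    (hp : ∀ j, 0 ≤ p j) (s : Finset (Fin r)) :
    DiffContOnCl ℂ (fun x => ∏ j ∈ s, (1 - conj (z j) * x) ^ (p j : ℂ)) (ball 0 1) := by
  classical
  induction s using Finset.induction_on with
  | empty => simpa using diffContOnCl_const
  | insert a s ha ih =>
    have h := (diffContOnCl_factor (hz a) (hp a)).smul ih
    have e : (fun x => ∏ j ∈ insert a s, (1 - conj (z j) * x) ^ (p j : ℂ)) =
        fun x => (1 - conj (z a) * x) ^ (p a : ℂ) • ∏ j ∈ s, (1 - conj (z j) * x) ^ (p j : ℂ) := by
      ext x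
      rw [Finset.prod_insert ha, smul_eq_mul]
    rw [e]
    exact h

/-- For every `r ≥ 1`, all points `z j` on the unit circle and all weights `p j ≥ 0` with
sum `r`, some point `w` of the unit circle satisfies `∏ |w - z j| ^ p j ≥ 2`. -/
theorem result : ∀ r : ℕ, 1 ≤ r → ∀ (z : Fin r → ℂ) (p : Fin r → ℝ),
    (∀ j, ‖z j‖ = 1) → (∀ j, 0 ≤ p j) → ∑ j, p j = r →
    ∃ w : ℂ, ‖w‖ = 1 ∧ 2 ≤ ∏ j, ‖w - z j‖ ^ p j := by
  classical
  intro r hr z p hz hp hsum
  have hr0 : (0 : ℝ) < r := by exact_mod_cast hr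
  -- the maximum on the circle
  obtain ⟨F, hF⟩ : ∃ F : ℂ → ℝ, F = fun w => ∏ j, ‖w - z j‖ ^ p j := ⟨_, rfl⟩
  have hFc : Continuous F := by
    rw [hF]
    apply continuous_finsetProd
    intro j _
    exact (by fun_prop : Continuous fun w : ℂ => ‖w - z j‖).rpow_const (fun x => Or.inr (hp j))
  obtain ⟨w, hw, hmax⟩ := (isCompact_sphere (0:ℂ) 1).exists_isMaxOn
    ((NormedSpace.sphere_nonempty).2 zero_le_one) hFc.continuousOn
  rw [mem_sphere_zero_iff_norm] at hw
  refine ⟨w, hw, ?_⟩
  obtain ⟨M, hM⟩ : ∃ M : ℝ, M = F w := ⟨_, rfl⟩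
  have hMle : ∀ x : ℂ, ‖x‖ = 1 → F x ≤ M := by
    intro x hx
    rw [hM]
    exact hmax (by simpa using hx)
  suffices h2M : 2 ≤ M by
    rw [hM, hF] at h2M
    exact h2M
  -- the analytic function
  obtain ⟨f, hf⟩ : ∃ f : ℂ → ℂ, f = fun x => ∏ j, (1 - conj (z j) * x) ^ (p j : ℂ) := ⟨_, rfl⟩
  have hfd : DiffContOnCl ℂ f (ball 0 1) := by
    rw [hf]; exact diffContOnCl_prod hz hp Finset.univ
  have hfn : ∀ x, ‖f x‖ = F x := by
    intro x
    rw [hf, hF]
    simp only [norm_prod]
    refine Finset.prod_congr rfl fun j _ => ?_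
    rw [Complex.norm_cpow_real, norm_one_sub (hz j)]
  have hball : ∀ x ∈ ball (0:ℂ) 1, F x ≤ M := by
    intro x hx
    rw [← hfn]
    apply Complex.norm_le_of_forall_mem_frontier_norm_le (U := ball (0:ℂ) 1) isBounded_ball hfd
    · intro y hy
      rw [frontier_ball _ one_ne_zero, mem_sphere_zero_iff_norm] at hy
      rw [hfn]
      exact hMle y hy
    · exact subset_closure hx
  have hM1 : 1 ≤ M := by
    have h := hball 0 (mem_ball_self one_pos)
    have h0 : F 0 = 1 := by
      rw [hF]
      apply Finset.prod_eq_one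
      intro j _
      rw [zero_sub, norm_neg, hz j, Real.one_rpow]
    linarith
  -- the measure
  obtain ⟨S, hS⟩ : ∃ S : Finset ℂ, S = (Finset.univ.filter (fun j => p j ≠ 0)).image z := ⟨_, rfl⟩
  obtain ⟨ν, hν⟩ : ∃ ν : ℂ → ℝ, ν = fun w =>
    (∑ j ∈ Finset.univ.filter (fun j => p j ≠ 0) with z j = w, p j) / r := ⟨_, rfl⟩
  have hS1 : ∀ w ∈ S, ‖w‖ = 1 := by
    intro w hw
    rw [hS, Finset.mem_image] at hw
    obtain ⟨j, _, rfl⟩ := hw
    exact hz j
  have hνpos : ∀ w ∈ S, 0 < ν w := by
    intro w hw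
    rw [hS, Finset.mem_image] at hw
    obtain ⟨j, hj, rfl⟩ := hw
    rw [hν]
    apply div_pos _ hr0
    apply Finset.sum_pos'
    · intro i _; exact hp i
    · refine ⟨j, ?_, ?_⟩
      · simp only [Finset.mem_filter, Finset.mem_univ, true_and] at hj ⊢
        exact ⟨hj, trivial⟩
      · simp only [Finset.mem_filter, Finset.mem_univ, true_and] at hj
        exact lt_of_le_of_ne (hp j) (Ne.symm hj)
  have hfib : ∀ g : ℂ → ℝ, ∑ w ∈ S, ν w * g w = (∑ j, p j * g (z j)) / r := by
    intro g
    have h1 : ∑ w ∈ S, ν w * g w = (∑ w ∈ S,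
        ∑ j ∈ Finset.univ.filter (fun j => p j ≠ 0) with z j = w, p j * g (z j)) / r := by
      rw [Finset.sum_div]
      refine Finset.sum_congr rfl fun w _ => ?_
      rw [hν]
      simp only
      rw [div_mul_eq_mul_div, Finset.sum_mul]
      congr 1
      refine Finset.sum_congr rfl fun j hj => ?_
      rw [Finset.mem_filter] at hj
      rw [hj.2]
    rw [h1]
    congr 1
    rw [Finset.sum_fiberwise_of_maps_to]
    · rw [Finset.sum_filter]
      refine Finset.sum_congr rfl fun j _ => ?_
      by_cases h : p j = 0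
      · simp [h]
      · simp [h]
    · intro j hj
      rw [hS]
      exact Finset.mem_image_of_mem z hj
  have hνsum : ∑ w ∈ S, ν w = 1 := by
    have := hfib (fun _ => 1)
    simp only [mul_one] at this
    rw [this, hsum, div_self hr0.ne']
  have hcard : (S.card : ℝ) ≤ r := by
    have h1 : S.card ≤ r := by
      rw [hS]
      refine Finset.card_image_le.trans ?_
      refine (Finset.card_filter_le _ _).trans ?_
      simp
    exact_mod_cast h1
  have hL : ∀ x ∈ ball (0:ℂ) 1, ∑ w ∈ S, ν w * Real.log ‖1 - conj w * x‖ ≤ Real.log M / r := by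
    intro x hx
    rw [hfib (fun w => Real.log ‖1 - conj w * x‖)]
    apply div_le_div_of_nonneg_right _ hr0.le
    have hpos : ∀ j, 0 < ‖1 - conj (z j) * x‖ := by
      intro j
      rw [norm_pos_iff]
      intro h
      rw [one_sub_eq_zero_iff (hz j)] at h
      rw [h, mem_ball_zero_iff, hz j] at hx
      exact lt_irrefl _ hx
    have h1 : ∑ j, p j * Real.log ‖1 - conj (z j) * x‖ = Real.log (F x) := by
      rw [hF]
      simp only
      rw [Real.log_prod]
      · refine Finset.sum_congr rfl fun j _ => ?_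
        rw [← norm_one_sub (hz j), Real.log_rpow (hpos j)]
      · intro j _
        rw [← norm_one_sub (hz j)]
        exact (Real.rpow_pos_of_pos (hpos j) _).ne'
    rw [h1]
    apply Real.log_le_log _ (hball x hx)
    rw [hF]
    apply Finset.prod_pos
    intro j _
    rw [← norm_one_sub (hz j)]
    exact Real.rpow_pos_of_pos (hpos j) _
  -- conclusion
  have hlogM : 0 ≤ Real.log M := Real.log_nonneg hM1
  have hmain : ∀ s : ℝ, 0 < s → s < 1 → ∀ K : ℕ, Real.log (1 + s) - 1 / (K + 1) ≤ Real.log M := by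
    intro s hs0 hs1 K
    have h := main_ineq hS1 hνpos hνsum hL hs0 hs1 K
    have h2 : (S.card : ℝ) * (Real.log M / r) ≤ r * (Real.log M / r) :=
      mul_le_mul_of_nonneg_right hcard (by positivity)
    have h3 : (r : ℝ) * (Real.log M / r) = Real.log M := by field_simp
    linarith
  have hmain2 : ∀ s : ℝ, 0 < s → s < 1 → Real.log (1 + s) ≤ Real.log M := by
    intro s hs0 hs1
    have ht : Tendsto (fun K : ℕ => Real.log (1 + s) - 1 / ((K : ℝ) + 1)) atTop
        (𝓝 (Real.log (1 + s) - 0)) :=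
      tendsto_const_nhds.sub tendsto_one_div_add_atTop_nhds_zero_nat
    rw [sub_zero] at ht
    exact le_of_tendsto' ht (fun K => hmain s hs0 hs1 K)
  have hfinal : Real.log 2 ≤ Real.log M := by
    have ht : Tendsto (fun s : ℝ => Real.log (1 + s)) (𝓝[<] 1) (𝓝 (Real.log (1 + 1))) := by
      have hc : ContinuousAt (fun s : ℝ => Real.log (1 + s)) 1 := by
        apply ContinuousAt.log (by fun_prop) (by norm_num)
      exact hc.tendsto.mono_left nhdsWithin_le_nhds
    have h11 : (1:ℝ) + 1 = 2 := by norm_num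
    rw [h11] at ht
    apply le_of_tendsto ht
    have : Ioo (0:ℝ) 1 ∈ 𝓝[<] (1:ℝ) := Ioo_mem_nhdsLT (by norm_num)
    filter_upwards [this] with s hs
    exact hmain2 s hs.1 hs.2
  exact (Real.log_le_log_iff (by norm_num) (by linarith)).1 hfinal

end Pool.Agent.Results.MP_280d4a_an.WeightedProduct
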